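import Mathlib

set_option autoImplicit false

/-!
# A doubly stochastic matrix determined by its spectrum that lies on none of the segments
-/

open Finset Matrix

namespace Pool.Agent.Results.MP_3aa442_co.OffSegments

/-- Symmetric doubly stochastic matrices. -/
def DeltaS (n : ℕ) : Set (Matrix (Fin n) (Fin n) ℝ) :=
  {A | A.IsSymm ∧ A ∈ doublyStochastic ℝ (Fin n)}

/-- The matrix with zero diagonal and all other entries `1 / (n - 1)`. -/
noncomputable def C (n : ℕ) : Matrix (Fin n) (Fin n) ℝ :=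
  Matrix.of fun i j => if i = j then 0 else 1 / ((n : ℝ) - 1)

/-- `A` is determined by its spectrum among the symmetric doubly stochastic matrices: every matrix
of that kind similar to `A` is obtained from `A` by a simultaneous permutation of rows and
columns. -/
def IsDS {n : ℕ} (A : Matrix (Fin n) (Fin n) ℝ) : Prop :=
  ∀ B ∈ DeltaS n, (∃ S : (Matrix (Fin n) (Fin n) ℝ)ˣ, B = (S⁻¹).val * A * S.val) →
    ∃ σ : Equiv.Perm (Fin n), B = A.submatrix σ σ

/-- The counterexample. -/
def A (a : ℝ) : Matrix (Fin 4) (Fin 4) ℝ :=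
  !![0, 1, 0, 0; 1, 0, 0, 0; 0, 0, a, 1 - a; 0, 0, 1 - a, a]

lemma mem_iff {n : ℕ} (M : Matrix (Fin n) (Fin n) ℝ) :
    M ∈ DeltaS n ↔ (∀ i j, M i j = M j i) ∧ (∀ i j, 0 ≤ M i j) ∧ ∀ i, ∑ j, M i j = 1 := by
  unfold DeltaS
  rw [Set.mem_ofPred_eq, mem_doublyStochastic_iff_sum]
  constructor
  · rintro ⟨h1, h2, h3, _⟩
    exact ⟨fun i j => h1.apply j i, h2, h3⟩
  · rintro ⟨h1, h2, h3⟩
    refine ⟨Matrix.IsSymm.ext fun i j => h1 j i, h2, h3, fun j => ?_⟩
    rw [← h3 j]
    exact sum_congr rfl fun i _ => h1 i j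

lemma A_mem (a : ℝ) (h0 : 0 ≤ a) (h1 : a ≤ 1) : A a ∈ DeltaS 4 := by
  rw [mem_iff]
  refine ⟨?_, ?_, ?_⟩
  · intro i j
    fin_cases i <;> fin_cases j <;> simp [A]
  · intro i j
    fin_cases i <;> fin_cases j <;> simp [A] <;> linarith
  · intro i
    fin_cases i <;> simp [A, Fin.sum_univ_succ]

lemma trace_A (a : ℝ) : (A a).trace = 2 * a := by
  simp [A, Matrix.trace, Fin.sum_univ_succ]; ring

/-- The key rigidity statement. -/
lemma rigid (a : ℝ) (ha : 0 < a) (B : Matrix (Fin 4) (Fin 4) ℝ) (hB : B ∈ DeltaS 4)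
    (htr : B.trace = 2 * a) (v : Fin 4 → ℝ) (hv : v ≠ 0) (hBv : B *ᵥ v = -v) :
    ∃ σ : Equiv.Perm (Fin 4), B = (A a).submatrix σ σ := by
  rw [mem_iff] at hB
  obtain ⟨hs, hn, hr⟩ := hB
  obtain ⟨i, -, hi⟩ := Finset.exists_max_image univ (fun i => |v i|) univ_nonempty
  set m := |v i| with hm
  have hmpos : 0 < m := by
    obtain ⟨j, hj⟩ := Function.ne_iff.1 hv
    have := hi j (mem_univ j)
    have h2 : 0 < |v j| := abs_pos.2 hj
    linarith
  have hbd : ∀ j, |v j| ≤ m := fun j => hi j (mem_univ j)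
  have hrow : ∀ p, ∑ q, B p q * v q = - v p := by
    intro p
    exact congrFun hBv p
  have hpos : ∀ p q, v p = m → 0 < B p q → v q = -m := by
    intro p q hp hpq
    have h1 : ∑ q, B p q * (v q + m) = 0 := by
      have : ∑ q, B p q * (v q + m) = ∑ q, B p q * v q + m * ∑ q, B p q := by
        rw [mul_sum, ← sum_add_distrib]
        exact sum_congr rfl fun q _ => by ring
      rw [this, hrow, hr, hp]; ring
    have h2 : ∀ q ∈ (univ : Finset (Fin 4)), 0 ≤ B p q * (v q + m) := by
      intro q _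
      have := (abs_le.1 (hbd q)).1
      exact mul_nonneg (hn p q) (by linarith)
    have h3 := (sum_eq_zero_iff_of_nonneg h2).1 h1 q (mem_univ q)
    rcases mul_eq_zero.1 h3 with h | h
    · linarith
    · linarith
  have hneg : ∀ p q, v p = -m → 0 < B p q → v q = m := by
    intro p q hp hpq
    have h1 : ∑ q, B p q * (m - v q) = 0 := by
      have : ∑ q, B p q * (m - v q) = m * ∑ q, B p q - ∑ q, B p q * v q := by
        rw [mul_sum, ← sum_sub_distrib]
        exact sum_congr rfl fun q _ => by ring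
      rw [this, hrow, hr, hp]; ring
    have h2 : ∀ q ∈ (univ : Finset (Fin 4)), 0 ≤ B p q * (m - v q) := by
      intro q _
      have := (abs_le.1 (hbd q)).2
      exact mul_nonneg (hn p q) (by linarith)
    have h3 := (sum_eq_zero_iff_of_nonneg h2).1 h1 q (mem_univ q)
    rcases mul_eq_zero.1 h3 with h | h
    · linarith
    · linarith
  let P := univ.filter (fun p => v p = m)
  let N := univ.filter (fun p => v p = -m)
  have hz1 : ∀ p ∈ P, ∀ q, q ∉ N → B p q = 0 := by
    intro p hp q hq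
    by_contra hne
    apply hq
    rw [mem_filter] at hp ⊢
    exact ⟨mem_univ _, hpos p q hp.2 (lt_of_le_of_ne (hn p q) (Ne.symm hne))⟩
  have hz2 : ∀ p ∈ N, ∀ q, q ∉ P → B p q = 0 := by
    intro p hp q hq
    by_contra hne
    apply hq
    rw [mem_filter] at hp ⊢
    exact ⟨mem_univ _, hneg p q hp.2 (lt_of_le_of_ne (hn p q) (Ne.symm hne))⟩
  have hP : ∀ p ∈ P, ∑ q ∈ N, B p q = 1 := by
    intro p hp
    rw [← hr p]
    exact sum_subset (subset_univ _) fun q _ hq => hz1 p hp q hq
  have hN : ∀ p ∈ N, ∑ q ∈ P, B p q = 1 := by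
    intro p hp
    rw [← hr p]
    exact sum_subset (subset_univ _) fun q _ hq => hz2 p hp q hq
  have hcard : P.card = N.card := by
    have h1 : ∑ p ∈ P, ∑ q ∈ N, B p q = P.card := by
      rw [sum_congr rfl hP]; simp
    have h2 : ∑ q ∈ N, ∑ p ∈ P, B q p = N.card := by
      rw [sum_congr rfl hN]; simp
    have h4 : ∑ p ∈ P, ∑ q ∈ N, B p q = ∑ q ∈ N, ∑ p ∈ P, B p q := sum_comm
    have h3 : ∑ q ∈ N, ∑ p ∈ P, B p q = ∑ q ∈ N, ∑ p ∈ P, B q p :=
      sum_congr rfl fun q _ => sum_congr rfl fun p _ => hs p q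
    have : (P.card : ℝ) = N.card := by rw [← h1, ← h2, ← h3, h4]
    exact_mod_cast this
  have hdisj : Disjoint P N := by
    rw [Finset.disjoint_left]
    intro p hp hq
    rw [mem_filter] at hp hq
    linarith [hp.2, hq.2]
  have hne : 0 < P.card + N.card := by
    rcases abs_choice (v i) with h | h
    · have : i ∈ P := by rw [mem_filter]; exact ⟨mem_univ _, by rw [hm]; exact h.symm⟩
      have := card_pos.2 ⟨i, this⟩
      omega
    · have : i ∈ N := by rw [mem_filter]; exact ⟨mem_univ _, by rw [hm, h]; ring⟩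
      have := card_pos.2 ⟨i, this⟩
      omega
  have hle : P.card + N.card ≤ 4 := by
    rw [← card_union_of_disjoint hdisj]
    exact (card_le_univ _).trans (by simp)
  have hone : P.card = 1 := by
    by_contra hcon
    have h2 : P.card = 2 := by omega
    have hun : P ∪ N = univ := by
      apply Finset.eq_univ_of_card
      rw [card_union_of_disjoint hdisj, ← hcard, h2]; rfl
    have : B.trace = 0 := by
      unfold Matrix.trace
      refine sum_eq_zero fun p _ => ?_
      have hp : p ∈ P ∪ N := by rw [hun]; exact mem_univ _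
      rw [Matrix.diag_apply]
      rcases mem_union.1 hp with h | h
      · exact hz1 p h p fun h' => (Finset.disjoint_left.1 hdisj) h h'
      · exact hz2 p h p fun h' => (Finset.disjoint_left.1 hdisj) h' h
    linarith
  obtain ⟨x, hx⟩ := card_eq_one.1 hone
  obtain ⟨y, hy⟩ := card_eq_one.1 (hcard ▸ hone)
  have hxy : x ≠ y := by
    intro h
    rw [hx, hy, h] at hdisj
    exact (Finset.disjoint_left.1 hdisj) (mem_singleton_self y) (mem_singleton_self y)
  have hxP : x ∈ P := by rw [hx]; exact mem_singleton_self x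
  have hyN : y ∈ N := by rw [hy]; exact mem_singleton_self y
  have hBxy : B x y = 1 := by
    have := hP x hxP
    rwa [hy, sum_singleton] at this
  have hBx : ∀ q, q ≠ y → B x q = 0 := by
    intro q hq
    apply hz1 x hxP
    rw [hy, mem_singleton]; exact hq
  have hBy : ∀ q, q ≠ x → B y q = 0 := by
    intro q hq
    apply hz2 y hyN
    rw [hx, mem_singleton]; exact hq
  have hperm : ∀ x y : Fin 4, x ≠ y → ∃ τ : Equiv.Perm (Fin 4), τ 0 = x ∧ τ 1 = y := by decide
  obtain ⟨τ, h0, h1⟩ := hperm x y hxy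
  have hinj := τ.injective
  have t02 : τ 2 ≠ x := by rw [← h0]; exact hinj.ne (by decide)
  have t03 : τ 3 ≠ x := by rw [← h0]; exact hinj.ne (by decide)
  have t12 : τ 2 ≠ y := by rw [← h1]; exact hinj.ne (by decide)
  have t13 : τ 3 ≠ y := by rw [← h1]; exact hinj.ne (by decide)
  have sumτ : ∀ f : Fin 4 → ℝ, ∑ q, f q = f x + f y + f (τ 2) + f (τ 3) := by
    intro f
    rw [← Equiv.sum_comp τ f, Fin.sum_univ_four, h0, h1]
  have r2 := hr (τ 2)
  rw [sumτ, hs (τ 2) x, hBx _ t12, hs (τ 2) y, hBy _ t02] at r2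
  have r3 := hr (τ 3)
  rw [sumτ, hs (τ 3) x, hBx _ t13, hs (τ 3) y, hBy _ t03] at r3
  have htr' : B x x + B y y + B (τ 2) (τ 2) + B (τ 3) (τ 3) = 2 * a := by
    rw [← htr]
    unfold Matrix.trace
    rw [sumτ]
    rfl
  rw [hBx x hxy, hBy y hxy.symm] at htr'
  have hs23 := hs (τ 2) (τ 3)
  have e22 : B (τ 2) (τ 2) = a := by linarith
  have e33 : B (τ 3) (τ 3) = a := by linarith
  have e23 : B (τ 2) (τ 3) = 1 - a := by linarith
  have e32 : B (τ 3) (τ 2) = 1 - a := by linarith
  refine ⟨τ.symm, ?_⟩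
  have key : ∀ p q, B (τ p) (τ q) = A a p q := by
    intro p q
    have z02 : B x (τ 2) = 0 := hBx _ t12
    have z03 : B x (τ 3) = 0 := hBx _ t13
    have z12 : B y (τ 2) = 0 := hBy _ t02
    have z13 : B y (τ 3) = 0 := hBy _ t03
    have z20 : B (τ 2) x = 0 := by rw [hs]; exact z02
    have z30 : B (τ 3) x = 0 := by rw [hs]; exact z03
    have z21 : B (τ 2) y = 0 := by rw [hs]; exact z12
    have z31 : B (τ 3) y = 0 := by rw [hs]; exact z13
    have z10 : B y x = 1 := by rw [hs]; exact hBxy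
    have z00 : B x x = 0 := hBx _ hxy
    have z11 : B y y = 0 := hBy _ hxy.symm
    subst h0 h1
    fin_cases p <;> fin_cases q
    · exact z00
    · exact hBxy
    · exact z02
    · exact z03
    · exact z10
    · exact z11
    · exact z12
    · exact z13
    · exact z20
    · exact z21
    · exact e22
    · exact e23
    · exact z30
    · exact z31
    · exact e32
    · exact e33
  ext p q
  have := key (τ.symm p) (τ.symm q)
  rw [Equiv.apply_symm_apply, Equiv.apply_symm_apply] at this
  rw [this]; rfl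

lemma A_DS (a : ℝ) (ha : 0 < a) : IsDS (A a) := by
  rintro B hB ⟨S, hS⟩
  have htr : B.trace = 2 * a := by
    rw [hS, Matrix.trace_mul_comm, ← mul_assoc, Units.mul_inv, one_mul, trace_A]
  let u : Fin 4 → ℝ := ![1, -1, 0, 0]
  have hu : A a *ᵥ u = -u := by
    ext i
    fin_cases i <;> simp [A, u, Matrix.mulVec, dotProduct, Fin.sum_univ_succ]
  refine rigid a ha B hB htr ((S⁻¹).val *ᵥ u) ?_ ?_
  · intro h0
    have h1 : S.val *ᵥ ((S⁻¹).val *ᵥ u) = u := by
      rw [Matrix.mulVec_mulVec, Units.mul_inv, Matrix.one_mulVec]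
    rw [h0, Matrix.mulVec_zero] at h1
    have := congrFun h1 0
    simp [u] at this
  · rw [hS, Matrix.mulVec_mulVec, mul_assoc, Units.mul_inv, mul_one, ← Matrix.mulVec_mulVec, hu,
      Matrix.mulVec_neg]

lemma A_not_extreme (a : ℝ) (h0 : 0 < a) (h1 : a < 1) : A a ∉ (DeltaS 4).extremePoints ℝ := by
  intro h
  have h2 := (mem_extremePoints.1 h).2 (A 0) (A_mem 0 le_rfl zero_le_one) (A 1)
    (A_mem 1 zero_le_one le_rfl) ⟨1 - a, a, by linarith, h0, by ring, by
      ext i j
      fin_cases i <;> fin_cases j <;> simp [A]⟩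
  have h3 := congrFun (congrFun h2.1 2) 2
  simp [A] at h3
  linarith

/-- For every trace `b` with `0 < b < 2` there is a symmetric doubly stochastic matrix of order
four with trace `b` that is determined by its spectrum and lies on none of the segments. -/
theorem result : ∀ b : ℝ, 0 < b → b < 2 → ∃ M : Matrix (Fin 4) (Fin 4) ℝ,
    M ∈ DeltaS 4 ∧ M.trace = b ∧ IsDS M ∧ M ∉ segment ℝ 1 (C 4) ∧
      ∀ P ∈ (DeltaS 4).extremePoints ℝ, M ∉ segment ℝ 1 P ∧ M ∉ segment ℝ (C 4) P := by
  intro b hb0 hb2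
  refine ⟨A (b / 2), A_mem _ (by linarith) (by linarith), by rw [trace_A]; ring,
    A_DS _ (by linarith), ?_, ?_⟩
  · rintro ⟨s, t, hs, ht, hst, h⟩
    have h1 := congrFun (congrFun h 0) 2
    have h2 := congrFun (congrFun h 0) 1
    simp [A, C] at h1 h2
    rcases h1 with h1 | h1
    · rw [h1] at h2; simp at h2
    · norm_num at h1
  · intro P hP
    have hPm := (mem_iff P).1 hP.1
    constructor
    · rintro ⟨s, t, hs, ht, hst, h⟩
      have h1 := congrFun (congrFun h 0) 0
      simp [A] at h1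
      have h2 := mul_nonneg ht (hPm.2.1 0 0)
      have hs0 : s = 0 := by linarith
      have ht1 : t = 1 := by linarith
      rw [hs0, ht1, zero_smul, one_smul, zero_add] at h
      rw [h] at hP
      exact A_not_extreme _ (by linarith) (by linarith) hP
    · rintro ⟨s, t, hs, ht, hst, h⟩
      have h1 := congrFun (congrFun h 0) 2
      simp [A, C] at h1
      have h2 := mul_nonneg ht (hPm.2.1 0 2)
      have h3 : 0 ≤ s * (4 - 1 : ℝ)⁻¹ := mul_nonneg hs (by norm_num)
      have hs0 : s * (4 - 1 : ℝ)⁻¹ = 0 := by linarith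
      have hs0' : s = 0 := by
        rcases mul_eq_zero.1 hs0 with h | h
        · exact h
        · norm_num at h
      have ht1 : t = 1 := by linarith
      rw [hs0', ht1, zero_smul, one_smul, zero_add] at h
      rw [h] at hP
      exact A_not_extreme _ (by linarith) (by linarith) hP

end Pool.Agent.Results.MP_3aa442_co.OffSegments
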